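import Pool.Agent.Helper41.LD7.Defs

/-!
# Project LD7, block T_phase: the number of the steps in a phase
-/

set_option autoImplicit false

namespace Pool.Agent.Helper90.LD7

open Set MeasureTheory Filter Topology
open Pool.Agent.Helper41.LD (Kk)
open Pool.Agent.Helper41.LD3 (ll ll_succ ll_pos)
open Pool.Agent.Helper41.LD5 (fp pwf)
open Pool.Agent.Helper41.LD7

variable {F : Pm} {K : ℕ} {Θ a₀ ℓst a ℓ : ℝ}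

/-- `N` further exponents -/
lemma fp_add90 {A₀ x : ℝ} {P : ℕ} (hA : 0 < A₀) (hP : 1 ≤ P) (hx : 1 < x) (m N : ℕ) :
    fp A₀ P m x * (x ^ (1 / (P : ℝ))) ^ N ≤ fp A₀ P (m + N) x := by
  have hx0 : 0 < x := by linarith
  have hP0 : (0 : ℝ) < P := by exact_mod_cast hP
  unfold fp
  have e1 : x ^ (((m + N : ℕ) : ℝ) / P - 1) = x ^ ((m : ℝ) / P - 1) * (x ^ (1 / (P : ℝ))) ^ N := by
    rw [← Real.rpow_natCast (x ^ (1 / (P : ℝ))) N, ← Real.rpow_mul hx0.le, ← Real.rpow_add hx0]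
    congr 1
    push_cast
    field_simp
    ring
  rw [e1]
  have h1 : (m : ℝ) / P ≤ ((m + N : ℕ) : ℝ) / P := by
    refine div_le_div_of_nonneg_right ?_ hP0.le
    exact_mod_cast Nat.le_add_right m N
  calc A₀ * ((m : ℝ) / P) * x ^ ((m : ℝ) / P - 1) * (x ^ (1 / (P : ℝ))) ^ N
      = A₀ * ((m : ℝ) / P) * (x ^ ((m : ℝ) / P - 1) * (x ^ (1 / (P : ℝ))) ^ N) := by ring
    _ ≤ A₀ * (((m + N : ℕ) : ℝ) / P) * (x ^ ((m : ℝ) / P - 1) * (x ^ (1 / (P : ℝ))) ^ N) := by gcongr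

lemma fp_mul90 (hF : F.Ok) (h1 : F.x₁ ≤ a) (n Λ : ℕ) : fp F.A₀ F.P n a * 2 ^ Λ ≤ fp F.A₀ F.P (n + F.X * Λ) a := by
  have ha : 1 < a := hF.h1.trans_le h1
  have hA := hF.hA
  have h3 : 0 ≤ fp F.A₀ F.P n a := by
    have : 0 < a := by linarith
    unfold fp
    positivity
  have hp : (2 : ℝ) ^ Λ ≤ (a ^ (1 / (F.P : ℝ))) ^ (F.X * Λ) := by
    rw [pow_mul]
    refine pow_le_pow_left₀ (by norm_num) (hF.hx1.trans (pow_le_pow_left₀ ?_ ?_ _)) _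
    · exact Real.rpow_nonneg (by linarith [hF.h1]) _
    · exact Real.rpow_le_rpow (by linarith [hF.h1]) h1 (by positivity)
  exact (mul_le_mul_of_nonneg_left hp h3).trans (fp_add90 hF.hA hF.hP ha n _)

lemma Tt_ne90 (hF : F.Ok) (h1 : F.x₁ ≤ a) (hℓ : 0 < ℓ) (Θ : ℝ) : {n : ℕ | Θ ≤ fp F.A₀ F.P n a * ℓ}.Nonempty := by
  have hA := hF.hA
  have ha : 1 < a := hF.h1.trans_le h1
  have hP0 : (0 : ℝ) < F.P := by exact_mod_cast hF.hP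
  obtain ⟨n, hn⟩ := exists_nat_ge (max (F.P : ℝ) (Θ * F.P / (F.A₀ * ℓ)))
  have h2 : (F.P : ℝ) ≤ n := (le_max_left _ _).trans hn
  have h3 : Θ * F.P / (F.A₀ * ℓ) ≤ n := (le_max_right _ _).trans hn
  refine ⟨n, ?_⟩
  rw [div_le_iff₀ (by positivity)] at h3
  show Θ ≤ F.A₀ * ((n : ℝ) / F.P) * a ^ ((n : ℝ) / F.P - 1) * ℓ
  have h4 : 1 ≤ a ^ ((n : ℝ) / F.P - 1) := by
    refine Real.one_le_rpow ha.le ?_
    rw [sub_nonneg, one_le_div hP0]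
    exact h2
  have h5 : Θ ≤ F.A₀ * ((n : ℝ) / F.P) * ℓ := by
    have : F.A₀ * ((n : ℝ) / F.P) * ℓ = (n * (F.A₀ * ℓ)) / F.P := by ring
    rw [this, le_div_iff₀ hP0]
    exact h3
  have h6 : 0 ≤ F.A₀ * ((n : ℝ) / F.P) * ℓ := by positivity
  calc Θ ≤ F.A₀ * ((n : ℝ) / F.P) * ℓ := h5
    _ ≤ F.A₀ * ((n : ℝ) / F.P) * ℓ * a ^ ((n : ℝ) / F.P - 1) := le_mul_of_one_le_right h6 h4
    _ = _ := by ring

lemma block_le90 (hF : F.Ok) (h1 : F.x₁ ≤ a) (hℓ : 0 < ℓ) (Θ : ℝ) (Λ : ℕ) :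
    Tt F.A₀ F.P Θ a (ℓ / 2 ^ Λ) ≤ Tt F.A₀ F.P Θ a ℓ + F.X * Λ := by
  have hs : Θ ≤ fp F.A₀ F.P (Tt F.A₀ F.P Θ a ℓ) a * ℓ := Nat.sInf_mem (Tt_ne90 hF h1 hℓ Θ)
  refine Nat.sInf_le ?_
  show Θ ≤ fp F.A₀ F.P (Tt F.A₀ F.P Θ a ℓ + F.X * Λ) a * (ℓ / 2 ^ Λ)
  have hp : (0 : ℝ) < 2 ^ Λ := by positivity
  have h2 := fp_mul90 hF h1 (Tt F.A₀ F.P Θ a ℓ) Λ
  calc Θ ≤ fp F.A₀ F.P (Tt F.A₀ F.P Θ a ℓ) a * ℓ := hs
    _ = fp F.A₀ F.P (Tt F.A₀ F.P Θ a ℓ) a * 2 ^ Λ * (ℓ / 2 ^ Λ) := by field_simp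
    _ ≤ _ := mul_le_mul_of_nonneg_right h2 (by positivity)

lemma Kk_phase90 (K₀ : ℕ) {σ k : ℕ} (h1 : 2 ^ σ - 1 ≤ k) (h2 : k < 2 ^ (σ + 1) - 1) : Kk K₀ k = K₀ + σ := by
  unfold Kk
  have h3 : 1 ≤ 2 ^ σ := Nat.one_le_two_pow
  congr 1
  rw [Nat.log_eq_iff (Or.inr ⟨by norm_num, by omega⟩)]
  constructor
  · omega
  · omega

/-- the number of the steps in a phase -/
theorem T_phase (hF : F.Ok) (S : F.St K a₀ ℓst) {ℓ₀ : ℝ} (hℓ₀ : 0 < ℓ₀) (K₀ : ℕ) {σ k : ℕ} (hKK : K = K₀ + σ) (hst : ℓst = ll 1 K₀ ℓ₀ (2 ^ σ - 1))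
    (h1 : 2 ^ σ - 1 ≤ k) (h2 : k ≤ 2 ^ (σ + 1) - 1) : F.T K a₀ ℓst (ll 1 K₀ ℓ₀ k) ≤ 2 ^ K * (F.X * K ^ 3) := by
  have key : ∀ d, 2 ^ σ - 1 + d ≤ 2 ^ (σ + 1) - 1 → Tt F.A₀ F.P (F.Th K) a₀ (ll 1 K₀ ℓ₀ (2 ^ σ - 1 + d)) ≤
      Tt F.A₀ F.P (F.Th K) a₀ ℓst + d * (F.X * K ^ 3) := by
    intro d
    induction d with
    | zero => intro _; simp [hst]
    | succ d ih =>
      intro hd
      have h3 := block_le90 hF S.lo (ll_pos (κ := 1) hℓ₀ K₀ (2 ^ σ - 1 + d)) (F.Th K) (K ^ 3)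
      have e1 : ll 1 K₀ ℓ₀ (2 ^ σ - 1 + d + 1) = ll 1 K₀ ℓ₀ (2 ^ σ - 1 + d) / 2 ^ (K ^ 3) := by
        rw [ll_succ, Kk_phase90 K₀ (Nat.le_add_right _ _) (by omega), hKK]
      rw [← e1] at h3
      have h4 := ih (by omega)
      have h5 : (d + 1) * (F.X * K ^ 3) = d * (F.X * K ^ 3) + F.X * K ^ 3 := by ring
      rw [h5, ← add_assoc (2 ^ σ - 1)]
      omega
  obtain ⟨d, rfl⟩ := Nat.exists_eq_add_of_le h1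
  have h3 := key d h2
  have h4 : d ≤ 2 ^ K := by
    have h5 : d ≤ 2 ^ σ := by
      have h6 : 1 ≤ 2 ^ σ := Nat.one_le_two_pow
      rw [pow_succ] at h2
      omega
    exact h5.trans (Nat.pow_le_pow_right (by norm_num) (by omega))
  have h6 := Nat.mul_le_mul_right (F.X * K ^ 3) h4
  unfold Pm.T Pm.n₀
  omega

end Pool.Agent.Helper90.LD7
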